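import Pool.Agent.W2helper32.DL.Fac

/-!
# Job U: the first difference of the factor complexity is unbounded
-/

set_option autoImplicit false
open Filter

namespace Pool.Agent.W2helper32.DL

open Pool.Agent.W2helper68.DL

variable {k : ℕ}

/-! ### letters outside `p` occur infinitely often -/

/-- the number of letters outside `p` -/
def cnt (p : Fin k → Bool) (w : List (Fin k)) : ℕ := w.countP (fun x => !p x)

section cnt

variable {σ : Fin k → List (Fin k)} {p : Fin k → Bool}

theorem cnt_append (v w : List (Fin k)) : cnt p (v ++ w) = cnt p v + cnt p w :=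
  List.countP_append

theorem cnt_zero {w : List (Fin k)} (h : ∀ x ∈ w, p x = true) : cnt p w = 0 := by
  unfold cnt
  rw [List.countP_eq_zero]
  intro x hx
  simp [h x hx]

theorem of_cnt_zero {w : List (Fin k)} (h : cnt p w = 0) : ∀ x ∈ w, p x = true := by
  unfold cnt at h
  rw [List.countP_eq_zero] at h
  intro x hx
  simpa using h x hx

theorem cnt_pos {w : List (Fin k)} (h : ∃ x ∈ w, p x = false) : 0 < cnt p w := by
  unfold cnt
  rw [List.countP_pos_iff]
  obtain ⟨x, hx, hx'⟩ := h
  exact ⟨x, hx, by simp [hx']⟩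

theorem cnt_one_le (hb : Blk σ p) (x : Fin k) : cnt p [x] ≤ cnt p (σ x) := by
  cases hx : p x with
  | true =>
    rw [cnt_zero (w := [x]) fun y hy => by rw [List.mem_singleton.mp hy, hx]]
    exact Nat.zero_le _
  | false =>
    have h1 := cnt_pos (hb.opened x hx)
    have h2 : cnt p [x] ≤ 1 := List.countP_le_length
    omega

theorem cnt_flatMap (hb : Blk σ p) (w : List (Fin k)) : cnt p w ≤ cnt p (w.flatMap σ) := by
  induction w with
  | nil => exact Nat.zero_le _
  | cons x w ih =>
    have h1 := cnt_one_le hb x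
    have h2 : cnt p (x :: w) = cnt p [x] + cnt p w := cnt_append [x] w
    rw [List.flatMap_cons, cnt_append]
    omega

theorem cnt_flatMap_eq (hb : Blk σ p) (w : List (Fin k)) (h : cnt p (w.flatMap σ) ≤ cnt p w) :
    ∀ x ∈ w, cnt p (σ x) = cnt p [x] := by
  induction w with
  | nil =>
    intro x hx
    exact absurd hx List.not_mem_nil
  | cons y w ih =>
    have h1 := cnt_one_le hb y
    have h2 : cnt p (y :: w) = cnt p [y] + cnt p w := cnt_append [y] w
    have h3 := cnt_flatMap hb w
    rw [List.flatMap_cons, cnt_append] at h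
    intro x hx
    rcases List.mem_cons.mp hx with rfl | hx
    · omega
    · exact ih (by omega) x hx

end cnt

section inf

variable {σ : Fin k → List (Fin k)} {a : Fin k} {u : ℕ → Fin k}
variable {β : ℝ} {d : ℕ} {p : Fin k → Bool} {lo hi : ℝ}

theorem infinitely_many (hu : Fix σ a u) (hocc : ∀ b : Fin k, ∃ i : ℕ, u i = b)
    (h : Slow σ β d p lo hi) (hb : ∃ b, p b = true) (ha : p a = false) (N : ℕ) :
    ∃ i, N ≤ i ∧ p (u i) = false := by
  by_contra hcon
  push Not at hcon
  have hall : ∀ i, N ≤ i → p (u i) = true := fun i hi => by simpa using hcon i hi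
  have hblk := h.blk
  obtain ⟨b, hb⟩ := hb
  have hhi := h.hi_pos hb
  -- the count of a long prefix
  have h1 : ∀ n, N ≤ n → cnt p (wd u 0 n) = cnt p (wd u 0 N) := by
    intro n hn
    obtain ⟨m, rfl⟩ := Nat.exists_eq_add_of_le hn
    rw [wd_add, cnt_append, cnt_zero (w := wd u (0 + N) m), add_zero]
    intro x hx
    obtain ⟨j, hj, rfl⟩ := List.getElem_of_mem hx
    rw [wd_get]
    exact hall _ (by omega)
  have h2 : ∀ c, cnt p (σ c) = cnt p [c] := by
    intro c
    obtain ⟨i, hi⟩ := hocc c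
    obtain ⟨M, hM⟩ := eventually_atTop.mp (hu.tend.eventually_ge_atTop (N + i + 1))
    have h3 := hM M le_rfl
    have h4 := hM (M + 1) (by omega)
    have h5 : cnt p ((S σ M [a]).flatMap σ) ≤ cnt p (S σ M [a]) := by
      rw [← S_succ', hu.pre, hu.pre, h1 (slen σ a (M + 1)) (by omega), h1 (slen σ a M) (by omega)]
    refine cnt_flatMap_eq hblk _ h5 c ?_
    rw [hu.pre, ← hi]
    have h6 : i < (wd u 0 (slen σ a M)).length := by
      rw [wd_length]
      omega
    have h7 := wd_get u 0 (slen σ a M) i h6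
    rw [zero_add] at h7
    rw [← h7]
    exact List.getElem_mem h6
  obtain ⟨m, hm⟩ : ∃ m : ℕ, ∀ c, (σ c).length ≤ m :=
    ⟨Finset.univ.sup fun c => (σ c).length, fun c => Finset.le_sup (f := fun c => (σ c).length)
      (Finset.mem_univ c)⟩
  obtain ⟨K, hK⟩ := sup_rec h.one_lt p (fun t c => slen σ c t) (m * hi) (fun t ht c hc => by
    obtain ⟨c', hc', hc''⟩ := hblk.opened c hc
    obtain ⟨w, w', hw⟩ := List.append_of_mem hc'
    have h3 := h2 c
    have h4 : cnt p [c] ≤ 1 := List.countP_le_length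
    have h5 : cnt p (σ c) = cnt p w + (cnt p [c'] + cnt p w') := by
      rw [hw, cnt_append]
      congr 1
      exact cnt_append [c'] w'
    have h6 : 0 < cnt p [c'] := cnt_pos ⟨c', List.mem_singleton_self c', hc''⟩
    have h7 := of_cnt_zero (p := p) (w := w) (by omega)
    have h8 := of_cnt_zero (p := p) (w := w') (by omega)
    have h9 := length_le_of σ t w _ fun x hx => h.le x t (h7 x hx) ht
    have h10 := length_le_of σ t w' _ fun x hx => h.le x t (h8 x hx) ht
    have h11 : slen σ c (t + 1) = (S σ t w).length + (slen σ c' t + (S σ t w').length) := by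
      rw [slen_eq, S_one_succ, hw, S_append, S_cons, List.length_append, List.length_append]
      rfl
    have h12 : (w.length : ℝ) + w'.length ≤ m := by
      have h13 := hm c
      rw [hw, List.length_append, List.length_cons] at h13
      exact_mod_cast (by omega : w.length + w'.length ≤ m)
    have h14 := gr_pos (d := d) h.one_lt ht
    refine ⟨c', hc'', ?_⟩
    show (slen σ c (t + 1) : ℝ) ≤ slen σ c' t + m * hi * gr β d t
    rw [h11]
    push_cast
    have h15 : (w.length + w'.length : ℝ) * (hi * gr β d t) ≤ m * (hi * gr β d t) :=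
      mul_le_mul_of_nonneg_right h12 (by positivity)
    linarith)
  have h3 := h.fast a ha (K + 1)
  obtain ⟨M, hM⟩ := eventually_atTop.mp (h3.and (eventually_ge_atTop 1))
  obtain ⟨h4, h5⟩ := hM M le_rfl
  have h6 := hK a ha M h5
  have h7 := gr_pos (d := d) h.one_lt h5
  have h8 : (slen σ a M : ℝ) ≤ K * gr β d M := h6
  linarith

/-- a block of letters in `p` with the letters before and after it -/
def Block (u : ℕ → Fin k) (p : Fin k → Bool) (L : ℕ) (c b₀ : Fin k) : Prop :=
  ∃ (v : List (Fin k)) (c' : Fin k), L ≤ v.length + 1 ∧ (∀ x ∈ b₀ :: v, p x = true) ∧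
    p c = false ∧ p c' = false ∧ IsF u (c :: (b₀ :: v) ++ [c'])

theorem exists_block (hu : Fix σ a u) (hu0 : u 0 = a) (hocc : ∀ b : Fin k, ∃ i : ℕ, u i = b)
    (h : Slow σ β d p lo hi) (hb : ∃ b, p b = true) (ha : p a = false)
    (htend : ∀ b : Fin k, Tendsto (fun m : ℕ => slen σ b m) atTop atTop) (L : ℕ) :
    ∃ c b₀, Block u p L c b₀ := by
  have hinf := infinitely_many hu hocc h hb ha
  obtain ⟨b, hb⟩ := hb
  obtain ⟨t, ht⟩ := ((htend b).eventually_ge_atTop (L + 1)).exists
  have h1 : IsF u [b] := by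
    obtain ⟨i, hi⟩ := hocc b
    refine ⟨i, ?_⟩
    refine List.ext_getElem (by rw [wd_length]) fun j h1 h2 => ?_
    rw [wd_get]
    have hj : j = 0 := by
      rw [List.length_singleton] at h1
      omega
    subst hj
    rw [add_zero, hi]
    rfl
  obtain ⟨i, hi⟩ := hu.isF_S t h1
  obtain ⟨n, hn⟩ : ∃ n, n = (S σ t [b]).length := ⟨_, rfl⟩
  rw [← hn] at hi
  have hnL : L + 1 ≤ n := by rw [hn]; exact ht
  have hin : ∀ j, i ≤ j → j < i + n → p (u j) = true := by
    intro j hj1 hj2
    have h2 := h.blk.S_closed t (w := [b]) (fun x hx => by rw [List.mem_singleton.mp hx, hb])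
    have h3 : j - i < (wd u i n).length := by rw [wd_length]; omega
    have h4 := wd_get u i n (j - i) h3
    rw [show i + (j - i) = j by omega] at h4
    rw [← h4]
    refine h2 _ ?_
    rw [hi]
    exact List.getElem_mem h3
  -- the last letter outside `p` before the block
  have hlast : ∀ i, ∃ j, j ≤ i ∧ p (u j) = false ∧ ∀ l, j < l → l ≤ i → p (u l) = true := by
    intro i
    induction i with
    | zero => exact ⟨0, le_rfl, by rw [hu0]; exact ha, fun l h1 h2 => by omega⟩
    | succ i ih =>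
      cases hp : p (u (i + 1)) with
      | false => exact ⟨i + 1, le_rfl, hp, fun l h1 h2 => by omega⟩
      | true =>
        obtain ⟨j, hj, hj1, hj2⟩ := ih
        refine ⟨j, by omega, hj1, fun l h1 h2 => ?_⟩
        rcases Nat.lt_or_ge i l with h3 | h3
        · have : l = i + 1 := by omega
          rw [this, hp]
        · exact hj2 l h1 h3
  obtain ⟨j, hj, hj1, hj2⟩ := hlast i
  have hji : j < i := by
    rcases Nat.lt_or_ge j i with h2 | h2
    · exact h2
    · have h3 : j = i := by omega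
      rw [h3, hin i le_rfl (by omega)] at hj1
      exact absurd hj1 (by decide)
  obtain ⟨q, hq, hq1, hq2⟩ : ∃ q, i ≤ q ∧ p (u q) = false ∧ ∀ l, i ≤ l → l < q → p (u l) = true := by
    classical
    have hex : ∃ q, i ≤ q ∧ p (u q) = false := hinf i
    refine ⟨Nat.find hex, (Nat.find_spec hex).1, (Nat.find_spec hex).2, fun l h1 h2 => ?_⟩
    have h3 := Nat.find_min hex h2
    by_contra h4
    exact h3 ⟨h1, by simpa using h4⟩
  have hqn : i + n ≤ q := by
    by_contra h2
    rw [hin q hq (by omega)] at hq1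
    exact absurd hq1 (by decide)
  have hmid : ∀ l, j < l → l < q → p (u l) = true := by
    intro l h1 h2
    rcases Nat.lt_or_ge l i with h3 | h3
    · exact hj2 l h1 h3.le
    · exact hq2 l h3 h2
  refine ⟨u j, u (j + 1), wd u (j + 2) (q - j - 2), u q, ?_, ?_, hj1, hq1, j, ?_⟩
  · rw [wd_length]
    omega
  · intro x hx
    rcases List.mem_cons.mp hx with rfl | hx
    · exact hmid _ (by omega) (by omega)
    · obtain ⟨l, hl, rfl⟩ := List.getElem_of_mem hx
      rw [wd_get]
      rw [wd_length] at hl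
      exact hmid _ (by omega) (by omega)
  · have h1 : (u j :: (u (j + 1) :: wd u (j + 2) (q - j - 2)) ++ [u q]).length =
        1 + (1 + ((q - j - 2) + 1)) := by
      simp only [List.length_append, List.length_cons, List.length_nil, wd_length]
      omega
    have h2 : ∀ i, wd u i 1 = [u i] := by
      intro i
      refine List.ext_getElem (by rw [wd_length]; rfl) fun j h1 h2 => ?_
      rw [wd_get]
      have hj : j = 0 := by
        rw [List.length_singleton] at h2
        omega
      subst hj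
      rfl
    rw [h1, wd_add, wd_add, wd_add, h2, h2, h2]
    have h3 : j + 1 + 1 + (q - j - 2) = q := by omega
    rw [h3]
    rfl

theorem Block.anti {p : Fin k → Bool} {L L' : ℕ} (hL : L ≤ L') {c b₀ : Fin k}
    (h : Block u p L' c b₀) : Block u p L c b₀ := by
  obtain ⟨v, c', h1, h2⟩ := h
  exact ⟨v, c', hL.trans h1, h2⟩

theorem exists_pair (h : ∀ L, ∃ c b₀, Block u p L c b₀) :
    ∃ c b₀, ∀ L, Block u p L c b₀ := by
  by_contra hcon
  push Not at hcon
  choose f hf using hcon
  obtain ⟨c, b₀, hcb⟩ := h (Finset.univ.sup fun x : Fin k × Fin k => f x.1 x.2)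
  exact hf c b₀ (hcb.anti (Finset.le_sup (f := fun x : Fin k × Fin k => f x.1 x.2)
    (Finset.mem_univ (c, b₀))))

end inf

/-- the first difference of two words -/
theorem first_diff (p : Fin k → Bool) (X Y V X' Y' : List (Fin k)) (hX : X = V ++ X')
    (hY : Y = V ++ Y') (h1 : run p X < X.length) (h2 : run p X < Y.length)
    (h3 : ∀ y ∈ Y, p y = true) :
    ∃ (G : List (Fin k)) (x y : Fin k) (X₁ Y₁ : List (Fin k)), x ≠ y ∧ X = (G ++ [x]) ++ X₁ ∧
      Y = (G ++ [y]) ++ Y₁ ∧ V.length ≤ G.length ∧ G.length ≤ run p X := by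
  classical
  have hex : ∃ i : ℕ, X[i]? ≠ Y[i]? := by
    refine ⟨run p X, fun h => ?_⟩
    rw [List.getElem?_eq_getElem h1, List.getElem?_eq_getElem h2] at h
    have h4 := get_run p h1
    rw [Option.some_injective _ h, h3 _ (List.getElem_mem h2)] at h4
    exact absurd h4 (by decide)
  obtain ⟨l, hl⟩ : ∃ l, l = Nat.find hex := ⟨_, rfl⟩
  have hl1 : X[l]? ≠ Y[l]? := by rw [hl]; exact Nat.find_spec hex
  have hl2 : ∀ i : ℕ, i < l → X[i]? = Y[i]? := fun i hi => by
    rw [hl] at hi
    exact not_not.mp (Nat.find_min hex hi)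
  have hl3 : l ≤ run p X := by
    rw [hl]
    refine Nat.find_min' hex fun h => ?_
    rw [List.getElem?_eq_getElem h1, List.getElem?_eq_getElem h2] at h
    have h4 := get_run p h1
    rw [Option.some_injective _ h, h3 _ (List.getElem_mem h2)] at h4
    exact absurd h4 (by decide)
  have hlX : l < X.length := by omega
  have hlY : l < Y.length := by omega
  have htake : X.take l = Y.take l := by
    refine List.ext_getElem? fun i => ?_
    rw [List.getElem?_take, List.getElem?_take]
    split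
    · exact hl2 i ‹_›
    · rfl
  refine ⟨X.take l, X[l], Y[l], X.drop (l + 1), Y.drop (l + 1), ?_, ?_, ?_, ?_, ?_⟩
  · intro h
    refine hl1 ?_
    rw [List.getElem?_eq_getElem hlX, List.getElem?_eq_getElem hlY, h]
  · rw [List.append_assoc, List.singleton_append, ← List.drop_eq_getElem_cons hlX,
      List.take_append_drop]
  · rw [htake, List.append_assoc, List.singleton_append, ← List.drop_eq_getElem_cons hlY,
      List.take_append_drop]
  · rw [List.length_take]
    refine le_min ?_ (by rw [hX, List.length_append]; omega)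
    by_contra h4
    refine hl1 ?_
    rw [hX, hY, List.getElem?_append_left (by omega), List.getElem?_append_left (by omega)]
  · rw [List.length_take]
    omega

/-- right special words with a prescribed distance to the last letter outside `p` -/
theorem special {σ : Fin k → List (Fin k)} {a : Fin k} {u : ℕ → Fin k} {p : Fin k → Bool}
    (hu : Fix σ a u) (hb : Blk σ p) (t : ℕ) (c b₀ c₁ : Fin k) (v₁ v₂ : List (Fin k))
    (hc₁ : p c₁ = false) (hv₁ : ∀ x ∈ b₀ :: v₁, p x = true) (hv₂ : ∀ x ∈ b₀ :: v₂, p x = true)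
    (h1 : IsF u (c :: (b₀ :: v₁) ++ [c₁])) (h2 : IsF u (c :: (b₀ :: v₂)))
    (hlen : (S σ t (b₀ :: v₁)).length + run p (S σ t [c₁]) < (S σ t (b₀ :: v₂)).length) :
    ∃ (G : List (Fin k)) (x y : Fin k), x ≠ y ∧ IsF u (S σ t [c] ++ G ++ [x]) ∧
      IsF u (S σ t [c] ++ G ++ [y]) ∧ (∀ z ∈ G, p z = true) ∧ slen σ b₀ t ≤ G.length ∧
      G.length ≤ (S σ t (b₀ :: v₁)).length + run p (S σ t [c₁]) := by
  have h3 : S σ t ((b₀ :: v₁) ++ [c₁]) = S σ t [b₀] ++ (S σ t v₁ ++ S σ t [c₁]) := by
    rw [S_append, S_cons, List.append_assoc]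
  have h4 : S σ t (b₀ :: v₂) = S σ t [b₀] ++ S σ t v₂ := S_cons σ t b₀ v₂
  have h5 : run p (S σ t ((b₀ :: v₁) ++ [c₁])) =
      (S σ t (b₀ :: v₁)).length + run p (S σ t [c₁]) := by
    rw [S_append, run_append_of_all p (hb.S_closed t hv₁)]
  have h6 : run p (S σ t ((b₀ :: v₁) ++ [c₁])) < (S σ t ((b₀ :: v₁) ++ [c₁])).length := by
    refine run_lt_of_not p (hb.S_opened t ⟨c₁, ?_, hc₁⟩)
    exact List.mem_append_right _ (List.mem_singleton_self c₁)
  obtain ⟨G, x, y, X₁, Y₁, hxy, hX, hY, hG1, hG2⟩ := first_diff p (S σ t ((b₀ :: v₁) ++ [c₁]))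
    (S σ t (b₀ :: v₂)) (S σ t [b₀]) _ _ h3 h4 h6 (by rw [h5]; exact hlen)
    (hb.S_closed t hv₂)
  refine ⟨G, x, y, hxy, ?_, ?_, ?_, hG1, ?_⟩
  · have h7 := hu.isF_S t h1
    have h8 : S σ t (c :: (b₀ :: v₁) ++ [c₁]) = (S σ t [c] ++ G ++ [x]) ++ X₁ := by
      rw [List.cons_append, S_cons, hX]
      simp only [List.append_assoc]
    rw [h8] at h7
    exact h7.left
  · have h7 := hu.isF_S t h2
    have h8 : S σ t (c :: (b₀ :: v₂)) = (S σ t [c] ++ G ++ [y]) ++ Y₁ := by
      rw [S_cons, hY]
      simp only [List.append_assoc]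
    rw [h8] at h7
    exact h7.left
  · intro z hz
    refine hb.S_closed t hv₂ z ?_
    rw [hY]
    exact List.mem_append_left _ (List.mem_append_left _ hz)
  · rw [← h5]
    exact hG2

/-- the length is nondecreasing -/
theorem slen_mono {σ : Fin k → List (Fin k)} (hpos : ∀ b t, 1 ≤ slen σ b t) (c : Fin k) (s t : ℕ) :
    slen σ c t ≤ slen σ c (s + t) := by
  have h1 : S σ (s + t) [c] = S σ s (S σ t [c]) := S_add σ s t [c]
  have h2 := length_ge_of σ s (S σ t [c]) 1 fun x _ => by exact_mod_cast hpos x s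
  rw [mul_one] at h2
  rw [slen_eq, slen_eq, h1]
  exact_mod_cast h2

/-- **Job U** -/
theorem jobU : JobU := by
  intro k σ a u htend hhead hlen hget hocc hqu hG R
  classical
  have : NeZero k := ⟨by rintro rfl; exact a.elim0⟩
  obtain ⟨β, d, p, lo, hi, h, hb⟩ := exists_slow σ hG
  have hblk := h.blk
  have hu : Fix σ a u := ⟨hget, htend a⟩
  have hhi : 0 < hi := by
    obtain ⟨b, hb⟩ := hb
    exact h.hi_pos hb
  have hu0 : u 0 = a := by
    have h1 := hget 0 0 (by show 0 < ([a] : List (Fin k)).length; simp)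
    have h2 : ([a] : List (Fin k))[0]? = some (u 0) := h1
    simpa using h2.symm
  -- the first letter has larger growth
  have ha : p a = false := by
    by_contra hcon
    have hcon : p a = true := by simpa using hcon
    have hall : ∀ c, p c = true := by
      intro c
      obtain ⟨i, hi⟩ := hocc c
      obtain ⟨m, hm⟩ := (hu.tend.eventually_ge_atTop (i + 1)).exists
      refine hblk.S_closed m (w := [a]) (fun x hx => by rw [List.mem_singleton.mp hx, hcon]) c ?_
      rw [hu.pre, ← hi]
      have h6 : i < (wd u 0 (slen σ a m)).length := by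
        rw [wd_length]
        omega
      have h7 := wd_get u 0 (slen σ a m) i h6
      rw [zero_add] at h7
      rw [← h7]
      exact List.getElem_mem h6
    refine hqu fun b c => ?_
    have hO : ∀ b c : Fin k, Asymptotics.IsBigO atTop (fun m : ℕ => (slen σ b m : ℝ))
        (fun m : ℕ => (slen σ c m : ℝ)) := by
      intro b c
      refine Asymptotics.IsBigO.of_bound (hi / lo) ?_
      filter_upwards [eventually_ge_atTop 1] with t ht
      rw [Real.norm_of_nonneg (Nat.cast_nonneg _), Real.norm_of_nonneg (Nat.cast_nonneg _)]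
      have h1 := h.le b t (hall b) ht
      have h2 := h.ge c t ht
      calc (slen σ b t : ℝ) ≤ hi * gr β d t := h1
        _ = hi / lo * (lo * gr β d t) := by
            rw [← mul_assoc, div_mul_cancel₀ _ h.lo_pos.ne']
        _ ≤ hi / lo * slen σ c t := mul_le_mul_of_nonneg_left h2 (div_pos hhi h.lo_pos).le
    exact ⟨hO b c, hO c b⟩
  have hpos : ∀ b t, 1 ≤ slen σ b t := by
    intro b t
    rcases Nat.eq_zero_or_pos t with rfl | ht
    · exact le_rfl
    · have h1 := h.ge b t ht
      have h2 := gr_pos (d := d) h.one_lt ht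
      have h3 : (0 : ℝ) < slen σ b t := lt_of_lt_of_le (mul_pos h.lo_pos h2) h1
      exact_mod_cast h3
  -- the two blocks
  obtain ⟨c, b₀, hcb⟩ := exists_pair fun L => exists_block hu hu0 hocc h hb ha htend L
  obtain ⟨v₁, c₁, -, hv₁, hc, hc₁, hF₁⟩ := hcb 0
  obtain ⟨K₁, hK₁⟩ := run_bound (d := d) h.one_lt hblk hhi.le h.le
  obtain ⟨K₂, hK₂⟩ := run_bound (σ := rv σ) (d := d) h.one_lt hblk.rv hhi.le fun b t hb ht => by
    rw [slen_rv]
    exact h.le b t hb ht
  obtain ⟨L, hL⟩ := exists_nat_gt (((v₁.length + 1) * hi + K₁) / lo)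
  rw [div_lt_iff₀ h.lo_pos] at hL
  obtain ⟨v₂, c₂, hv₂L, hv₂, -, hc₂, hF₂⟩ := hcb L
  -- the lengths
  have hup : ∀ t, 1 ≤ t → ((S σ t (b₀ :: v₁)).length : ℝ) + run p (S σ t [c₁]) ≤
      ((v₁.length + 1) * hi + K₁) * gr β d t := by
    intro t ht
    have h1 := length_le_of σ t (b₀ :: v₁) _ fun x hx => h.le x t (hv₁ x hx) ht
    have h2 := hK₁ c₁ hc₁ t ht
    rw [List.length_cons] at h1
    push_cast at h1
    linarith
  have hlt : ∀ t, 1 ≤ t → (S σ t (b₀ :: v₁)).length + run p (S σ t [c₁]) <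
      (S σ t (b₀ :: v₂)).length := by
    intro t ht
    have h1 := hup t ht
    have h2 := length_ge_of σ t (b₀ :: v₂) _ fun x _ => h.ge x t ht
    have h3 := gr_pos (d := d) h.one_lt ht
    have h4 : (L : ℝ) ≤ (b₀ :: v₂).length := by
      rw [List.length_cons]
      exact_mod_cast hv₂L
    have h5 : (L : ℝ) * (lo * gr β d t) ≤ (b₀ :: v₂).length * (lo * gr β d t) :=
      mul_le_mul_of_nonneg_right h4 (mul_pos h.lo_pos h3).le
    have h6 : ((v₁.length + 1) * hi + K₁) * gr β d t < (L * lo) * gr β d t :=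
      mul_lt_mul_of_pos_right hL h3
    have h7 : ((S σ t (b₀ :: v₁)).length : ℝ) + run p (S σ t [c₁]) <
        (S σ t (b₀ :: v₂)).length := by
      calc _ ≤ _ := h1
        _ < (L * lo) * gr β d t := h6
        _ = L * (lo * gr β d t) := by ring
        _ ≤ _ := h5
        _ ≤ _ := h2
    exact_mod_cast h7
  -- the right special words
  have hsp : ∀ t, ∃ (G : List (Fin k)) (x y : Fin k), 1 ≤ t → x ≠ y ∧
      IsF u (S σ t [c] ++ G ++ [x]) ∧ IsF u (S σ t [c] ++ G ++ [y]) ∧
      (∀ z ∈ G, p z = true) ∧ slen σ b₀ t ≤ G.length ∧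
      G.length ≤ (S σ t (b₀ :: v₁)).length + run p (S σ t [c₁]) := by
    intro t
    by_cases ht : 1 ≤ t
    · obtain ⟨G, x, y, h1⟩ := special hu hblk t c b₀ c₁ v₁ v₂ hc₁ hv₁ hv₂ hF₁ hF₂.left (hlt t ht)
      exact ⟨G, x, y, fun _ => h1⟩
    · exact ⟨[], a, a, fun h' => absurd h' ht⟩
  choose G x y hsp using hsp
  obtain ⟨Z, hZ⟩ : ∃ Z : ℕ → List (Fin k), ∀ t, Z t = S σ t [c] ++ G t := ⟨_, fun t => rfl⟩
  obtain ⟨δ, hδ⟩ : ∃ δ : ℕ → ℕ, ∀ t, δ t = run p (Z t).reverse := ⟨_, fun t => rfl⟩
  obtain ⟨C, hC⟩ : ∃ C : ℝ, C = max 0 ((v₁.length + 1) * hi + K₁ + K₂) := ⟨_, rfl⟩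
  have hC0 : 0 ≤ C := by rw [hC]; exact le_max_left _ _
  have hδ1 : ∀ t, 1 ≤ t → δ t = (G t).length + run p (S (rv σ) t [c]) := by
    intro t ht
    have h1 := S_rv σ t [c]
    rw [List.reverse_singleton] at h1
    rw [hδ, hZ, List.reverse_append, run_append_of_all p, List.length_reverse, h1]
    intro z hz
    exact (hsp t ht).2.2.2.1 z (List.mem_reverse.mp hz)
  have hδlo : ∀ t, 1 ≤ t → lo * gr β d t ≤ δ t := by
    intro t ht
    have h1 := h.ge b₀ t ht
    have h2 := (hsp t ht).2.2.2.2.1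
    have h3 : slen σ b₀ t ≤ δ t := by
      rw [hδ1 t ht]
      omega
    exact h1.trans (by exact_mod_cast h3)
  have hδhi : ∀ t, 1 ≤ t → (δ t : ℝ) ≤ C * gr β d t := by
    intro t ht
    have h1 := hup t ht
    have h2 := (hsp t ht).2.2.2.2.2
    have h3 := hK₂ c hc t ht
    have h4 := gr_pos (d := d) h.one_lt ht
    have h5 : ((G t).length : ℝ) ≤ (S σ t (b₀ :: v₁)).length + run p (S σ t [c₁]) := by
      exact_mod_cast h2
    rw [hδ1 t ht]
    push_cast
    have h6 : ((v₁.length + 1) * hi + K₁ + K₂) * gr β d t ≤ C * gr β d t := by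
      refine mul_le_mul_of_nonneg_right ?_ h4.le
      rw [hC]
      exact le_max_right _ _
    linarith
  obtain ⟨T, hT⟩ := pow_unbounded_of_one_lt (C / lo) h.one_lt
  rw [div_lt_iff₀ h.lo_pos] at hT
  have hstep : ∀ t, 1 ≤ t → δ t < δ (t + T) := by
    intro t ht
    have h1 := hδhi t ht
    have h2 := hδlo (t + T) (by omega)
    have h3 := gr_add_ge (d := d) h.one_lt t T
    have h4 := gr_pos (d := d) h.one_lt ht
    have h5 : (δ t : ℝ) < δ (t + T) := by
      calc (δ t : ℝ) ≤ C * gr β d t := h1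
        _ < (β ^ T * lo) * gr β d t := mul_lt_mul_of_pos_right hT h4
        _ = lo * (β ^ T * gr β d t) := by ring
        _ ≤ lo * gr β d (t + T) := mul_le_mul_of_nonneg_left h3 h.lo_pos.le
        _ ≤ δ (t + T) := h2
    exact_mod_cast h5
  -- the choice of the length
  obtain ⟨t, ht, ht1⟩ := ((h.fast c hc (C * ((1 + (R * T : ℕ) : ℝ) ^ d * β ^ (R * T)) + 1)).and
    (eventually_ge_atTop 1)).exists
  obtain ⟨n, hn⟩ : ∃ n, n = slen σ c t := ⟨_, rfl⟩
  have hmono : StrictMono fun j => δ (t + j * T) := by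
    refine strictMono_nat_of_lt_succ fun j => ?_
    have h1 := hstep (t + j * T) (by omega)
    rw [add_assoc, ← Nat.succ_mul] at h1
    exact h1
  have hδn : ∀ j, j ≤ R → δ (t + j * T) < n := by
    intro j hj
    have h1 : δ (t + j * T) ≤ δ (t + R * T) := hmono.monotone hj
    have h2 := hδhi (t + R * T) (by omega)
    have h3 := gr_add_le (d := d) h.one_lt ht1 (R * T)
    have h4 := gr_pos (d := d) h.one_lt ht1
    have h5 : (δ (t + R * T) : ℝ) < n := by
      rw [hn]
      calc (δ (t + R * T) : ℝ) ≤ C * gr β d (t + R * T) := h2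
        _ ≤ C * (((1 + (R * T : ℕ) : ℝ) ^ d * β ^ (R * T)) * gr β d t) :=
            mul_le_mul_of_nonneg_left h3 hC0
        _ < (C * ((1 + (R * T : ℕ) : ℝ) ^ d * β ^ (R * T)) + 1) * gr β d t := by linarith
        _ ≤ _ := ht
    have h6 : δ (t + R * T) < n := by exact_mod_cast h5
    omega
  -- the words
  obtain ⟨E, hE⟩ : ∃ E : ℕ → List (Fin k), ∀ j, E j = ((Z (t + j * T)).reverse.take n).reverse :=
    ⟨_, fun j => rfl⟩
  have hrun : ∀ j, j ≤ R → run p (E j).reverse = δ (t + j * T) := by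
    intro j hj
    have h1 := hδn j hj
    rw [hE, List.reverse_reverse, hδ]
    rw [hδ] at h1
    exact run_take p h1
  have hinj : Set.InjOn E (Finset.range R : Finset ℕ) := by
    intro i hi j hj hij
    have h1 := hrun i (Finset.mem_range.mp hi).le
    have h2 := hrun j (Finset.mem_range.mp hj).le
    rw [hij, h2] at h1
    exact (hmono.injective h1).symm
  have hcount := count_special u n ((Finset.range R).image E) (by
    intro w hw
    obtain ⟨j, hj, rfl⟩ := Finset.mem_image.mp hw
    have ht2 : 1 ≤ t + j * T := by omega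
    obtain ⟨h1, h2, h3, -⟩ := hsp (t + j * T) ht2
    have hlenZ : n ≤ (Z (t + j * T)).length := by
      have h4 := slen_mono hpos c (j * T) t
      rw [add_comm (j * T) t] at h4
      rw [hZ, List.length_append, hn]
      exact h4.trans (by rw [slen_eq]; omega)
    obtain ⟨D, hD⟩ : ∃ D, Z (t + j * T) = D ++ E j := by
      refine ⟨((Z (t + j * T)).reverse.drop n).reverse, ?_⟩
      rw [hE, ← List.reverse_append, List.take_append_drop, List.reverse_reverse]
    refine ⟨?_, x (t + j * T), y (t + j * T), h1, ?_, ?_⟩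
    · rw [hE, List.length_reverse, List.length_take, List.length_reverse]
      omega
    · rw [← hZ, hD, List.append_assoc] at h2
      exact h2.right
    · rw [← hZ, hD, List.append_assoc] at h3
      exact h3.right)
  rw [Finset.card_image_of_injOn hinj, Finset.card_range] at hcount
  refine ⟨n, ?_⟩
  have h1 : ((Fac u n).ncard : ℝ) + R ≤ (Fac u (n + 1)).ncard := by exact_mod_cast hcount
  linarith

end Pool.Agent.W2helper32.DL
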