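import Pool.Agent.W2helper32.DL.Slow

/-!
# Job U: factors of the fixed point, counting of right special factors
-/

set_option autoImplicit false
open Filter

namespace Pool.Agent.W2helper32.DL

open Pool.Agent.W2helper68.DL

variable {k : ℕ}

/-- the factor of length `n` at the place `i` -/
def wd (u : ℕ → Fin k) (i n : ℕ) : List (Fin k) := List.ofFn (fun j : Fin n => u (i + j.val))

theorem wd_length (u : ℕ → Fin k) (i n : ℕ) : (wd u i n).length = n := List.length_ofFn

theorem wd_get (u : ℕ → Fin k) (i n j : ℕ) (h : j < (wd u i n).length) :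
    (wd u i n)[j] = u (i + j) :=
  List.getElem_ofFn (f := fun j : Fin n => u (i + j.val)) h

theorem wd_add (u : ℕ → Fin k) (i m n : ℕ) : wd u i (m + n) = wd u i m ++ wd u (i + m) n := by
  refine List.ext_getElem ?_ fun j h1 h2 => ?_
  · rw [List.length_append, wd_length, wd_length, wd_length]
  · rw [wd_get]
    rcases Nat.lt_or_ge j m with h | h
    · rw [List.getElem_append_left (by rw [wd_length]; exact h), wd_get]
    · rw [List.getElem_append_right (by rw [wd_length]; exact h), wd_get, wd_length]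
      congr 1
      omega

theorem of_append_eq {u : ℕ → Fin k} {i n : ℕ} {v w : List (Fin k)} (h : v ++ w = wd u i n) :
    v = wd u i v.length ∧ w = wd u (i + v.length) w.length := by
  have h1 : n = v.length + w.length := by
    rw [← List.length_append, h, wd_length]
  rw [h1, wd_add] at h
  exact List.append_inj h (by rw [wd_length])

/-- `w` is a factor of `u` -/
def IsF (u : ℕ → Fin k) (w : List (Fin k)) : Prop := ∃ i, w = wd u i w.length

theorem mem_Fac {u : ℕ → Fin k} {n : ℕ} {w : List (Fin k)} :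
    w ∈ Fac u n ↔ w.length = n ∧ IsF u w := by
  constructor
  · rintro ⟨i, rfl⟩
    refine ⟨List.length_ofFn, i, ?_⟩
    show wd u i n = wd u i (wd u i n).length
    rw [wd_length]
  · rintro ⟨rfl, i, hi⟩
    exact ⟨i, hi.symm⟩

theorem IsF.left {u : ℕ → Fin k} {v w : List (Fin k)} (h : IsF u (v ++ w)) : IsF u v := by
  obtain ⟨i, hi⟩ := h
  exact ⟨i, (of_append_eq hi).1⟩

theorem IsF.right {u : ℕ → Fin k} {v w : List (Fin k)} (h : IsF u (v ++ w)) : IsF u w := by
  obtain ⟨i, hi⟩ := h
  exact ⟨_, (of_append_eq hi).2⟩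

theorem IsF.ext {u : ℕ → Fin k} {w : List (Fin k)} (h : IsF u w) : ∃ b, IsF u (w ++ [b]) := by
  obtain ⟨i, hi⟩ := h
  refine ⟨u (i + w.length), i, ?_⟩
  rw [List.length_append, List.length_singleton, wd_add, ← hi]
  congr 1

/-- The word `u` is the fixed point of `σ` with first letter `a`. -/
structure Fix (σ : Fin k → List (Fin k)) (a : Fin k) (u : ℕ → Fin k) : Prop where
  get : ∀ m i : ℕ, i < slen σ a m →
      ((fun w : List (Fin k) => w.flatMap σ)^[m] [a])[i]? = some (u i)
  tend : Tendsto (fun m : ℕ => slen σ a m) atTop atTop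

section fix

variable {σ : Fin k → List (Fin k)} {a : Fin k} {u : ℕ → Fin k}

theorem Fix.pre (h : Fix σ a u) (m : ℕ) : S σ m [a] = wd u 0 (slen σ a m) := by
  refine List.ext_getElem ?_ fun j h1 h2 => ?_
  · rw [wd_length]
    rfl
  · rw [wd_get, zero_add]
    have h3 := h.get m j h1
    have h4 : (S σ m [a])[j]? = some (u j) := h3
    rw [List.getElem?_eq_getElem h1] at h4
    exact Option.some_injective _ h4

theorem Fix.S_pre (h : Fix σ a u) (t n : ℕ) :
    S σ t (wd u 0 n) = wd u 0 (S σ t (wd u 0 n)).length := by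
  obtain ⟨m, hm⟩ := (h.tend.eventually_ge_atTop n).exists
  have h1 : wd u 0 n ++ wd u (0 + n) (slen σ a m - n) = S σ m [a] := by
    rw [h.pre, ← wd_add]
    congr 1
    omega
  have h2 : S σ t (wd u 0 n) ++ S σ t (wd u (0 + n) (slen σ a m - n)) =
      wd u 0 (slen σ a (t + m)) := by
    rw [← S_append, h1, ← S_add, h.pre]
  exact (of_append_eq h2).1

theorem Fix.isF_S (h : Fix σ a u) (t : ℕ) {w : List (Fin k)} (hw : IsF u w) :
    IsF u (S σ t w) := by
  obtain ⟨i, hi⟩ := hw
  have h1 : wd u 0 (i + w.length) = wd u 0 i ++ w := by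
    rw [wd_add, zero_add, ← hi]
  have h2 := h.S_pre t (i + w.length)
  rw [h1, S_append] at h2
  exact ⟨_, (of_append_eq h2).2⟩

end fix

/-! ### counting -/

theorem Fac_finite (u : ℕ → Fin k) (n : ℕ) : (Fac u n).Finite :=
  (List.finite_length_eq (Fin k) n).subset fun w hw => (mem_Fac.mp hw).1

/-- each right special factor contributes to the first difference -/
theorem count_special (u : ℕ → Fin k) (n : ℕ) (W : Finset (List (Fin k)))
    (hW : ∀ w ∈ W, w.length = n ∧ ∃ x y, x ≠ y ∧ IsF u (w ++ [x]) ∧ IsF u (w ++ [y])) :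
    (Fac u n).ncard + W.card ≤ (Fac u (n + 1)).ncard := by
  classical
  have hfin := Fac_finite u n
  have hex : ∀ w, ∃ b : Option (Fin k), w ∈ Fac u n → ∃ b', b = some b' ∧ IsF u (w ++ [b']) := by
    intro w
    by_cases h : w ∈ Fac u n
    · obtain ⟨b, hb⟩ := (mem_Fac.mp h).2.ext
      exact ⟨some b, fun _ => ⟨b, rfl, hb⟩⟩
    · exact ⟨none, fun h' => absurd h' h⟩
  choose e he using hex
  have hex' : ∀ w, ∃ b : Option (Fin k), w ∈ W → ∃ b', b = some b' ∧ b ≠ e w ∧
      IsF u (w ++ [b']) := by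
    intro w
    by_cases h : w ∈ W
    · obtain ⟨-, x, y, hxy, hx, hy⟩ := hW w h
      by_cases hxe : some x = e w
      · refine ⟨some y, fun _ => ⟨y, rfl, fun hye => hxy ?_, hy⟩⟩
        exact Option.some_injective _ (hxe.trans hye.symm)
      · exact ⟨some x, fun _ => ⟨x, rfl, hxe, hx⟩⟩
    · exact ⟨none, fun h' => absurd h' h⟩
  choose e' he' using hex'
  obtain ⟨f, hf⟩ : ∃ f : List (Fin k) → List (Fin k), f = fun w => w ++ (e w).toList := ⟨_, rfl⟩
  obtain ⟨f', hf'⟩ : ∃ f' : List (Fin k) → List (Fin k), f' = fun w => w ++ (e' w).toList :=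
    ⟨_, rfl⟩
  obtain ⟨A, hA⟩ : ∃ A : Finset (List (Fin k)), A = hfin.toFinset := ⟨_, rfl⟩
  have hAm : ∀ w, w ∈ A ↔ w ∈ Fac u n := fun w => by rw [hA]; exact hfin.mem_toFinset
  have hWA : ∀ w ∈ W, w.length = n := fun w hw => (hW w hw).1
  have hdrop : ∀ w v : List (Fin k), w.length = n → (w ++ v).take n = w := fun _ v hw => by
    rw [← hw, List.take_left']
    rfl
  have hfi : Set.InjOn f A := by
    intro w hw w' hw' hww
    have h1 := (mem_Fac.mp ((hAm w).mp hw)).1
    have h2 := (mem_Fac.mp ((hAm w').mp hw')).1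
    rw [hf] at hww
    have h3 := congrArg (List.take n) hww
    simpa only [hdrop _ _ h1, hdrop _ _ h2] using h3
  have hfi' : Set.InjOn f' W := by
    intro w hw w' hw' hww
    have h1 := hWA w hw
    have h2 := hWA w' hw'
    rw [hf'] at hww
    have h3 := congrArg (List.take n) hww
    simpa only [hdrop _ _ h1, hdrop _ _ h2] using h3
  have hdisj : Disjoint (A.image f) (W.image f') := by
    rw [Finset.disjoint_left]
    intro v hv hv'
    obtain ⟨w, hw, rfl⟩ := Finset.mem_image.mp hv
    obtain ⟨w', hw', hww⟩ := Finset.mem_image.mp hv'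
    have h1 := (mem_Fac.mp ((hAm w).mp hw)).1
    have h2 := hWA w' hw'
    rw [hf, hf'] at hww
    have h3 := congrArg (List.take n) hww
    simp only [hdrop _ _ h1, hdrop _ _ h2] at h3
    subst h3
    have h4 : (e' w').toList = (e w').toList := List.append_cancel_left hww
    obtain ⟨b, hb, hb1, -⟩ := he' w' hw'
    obtain ⟨b', hb', -⟩ := he w' ((hAm w').mp hw)
    rw [hb, hb'] at h4
    refine hb1 ?_
    rw [hb, hb']
    simpa using h4
  have hsub : ((A.image f ∪ W.image f' : Finset (List (Fin k))) : Set (List (Fin k))) ⊆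
      Fac u (n + 1) := by
    intro v hv
    rw [Finset.mem_coe, Finset.mem_union] at hv
    rcases hv with hv | hv
    · obtain ⟨w, hw, rfl⟩ := Finset.mem_image.mp hv
      have h1 := (mem_Fac.mp ((hAm w).mp hw)).1
      obtain ⟨b, hb, hb'⟩ := he w ((hAm w).mp hw)
      rw [mem_Fac, hf]
      simp only [hb]
      refine ⟨?_, hb'⟩
      simp [h1]
    · obtain ⟨w, hw, rfl⟩ := Finset.mem_image.mp hv
      have h1 := hWA w hw
      obtain ⟨b, hb, -, hb'⟩ := he' w hw
      rw [mem_Fac, hf']
      simp only [hb]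
      refine ⟨?_, hb'⟩
      simp [h1]
  have h1 : (A.image f ∪ W.image f').card = A.card + W.card := by
    rw [Finset.card_union_of_disjoint hdisj, Finset.card_image_of_injOn hfi,
      Finset.card_image_of_injOn hfi']
  have h2 : (Fac u n).ncard = A.card := by
    rw [hA, Set.ncard_eq_toFinset_card _ hfin]
  have h3 := Set.ncard_le_ncard hsub (Fac_finite u (n + 1))
  rw [Set.ncard_coe_finset] at h3
  omega

end Pool.Agent.W2helper32.DL
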