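import Pool.Agent.W2helper32.DL.Words

/-!
# Job U: growth
-/

set_option autoImplicit false
open Filter

namespace Pool.Agent.W2helper32.DL

open Pool.Agent.W2helper68.DL

/-- the function `t ^ d β ^ t` -/
noncomputable def gr (β : ℝ) (d : ℕ) (t : ℕ) : ℝ := (t : ℝ) ^ d * β ^ t

section gr

variable {β : ℝ} {d : ℕ}

theorem gr_pos (hβ : 1 < β) {t : ℕ} (ht : 1 ≤ t) : 0 < gr β d t := by
  have h1 : (0 : ℝ) < t := by exact_mod_cast ht
  have h2 : 0 < β := by linarith
  unfold gr
  positivity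

theorem gr_add_ge (hβ : 1 < β) (t s : ℕ) : β ^ s * gr β d t ≤ gr β d (t + s) := by
  have h2 : 0 < β := by linarith
  have h3 : (t : ℝ) ^ d ≤ ((t + s : ℕ) : ℝ) ^ d := by
    refine pow_le_pow_left₀ (Nat.cast_nonneg t) ?_ d
    push_cast
    linarith [(Nat.cast_nonneg s : (0 : ℝ) ≤ s)]
  have h4 : 0 < β ^ (t + s) := by positivity
  calc β ^ s * gr β d t = (t : ℝ) ^ d * β ^ (t + s) := by
        unfold gr
        rw [pow_add]
        ring
    _ ≤ ((t + s : ℕ) : ℝ) ^ d * β ^ (t + s) := mul_le_mul_of_nonneg_right h3 h4.le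
    _ = gr β d (t + s) := rfl

theorem gr_add_le (hβ : 1 < β) {t : ℕ} (ht : 1 ≤ t) (s : ℕ) :
    gr β d (t + s) ≤ ((1 + s : ℝ) ^ d * β ^ s) * gr β d t := by
  have h2 : 0 < β := by linarith
  have h1 : (1 : ℝ) ≤ t := by exact_mod_cast ht
  have h3 : ((t + s : ℕ) : ℝ) ^ d ≤ ((1 + s : ℝ) * t) ^ d := by
    refine pow_le_pow_left₀ (Nat.cast_nonneg _) ?_ d
    push_cast
    nlinarith [(Nat.cast_nonneg s : (0 : ℝ) ≤ s)]
  have h4 : 0 < β ^ (t + s) := by positivity
  calc gr β d (t + s) = ((t + s : ℕ) : ℝ) ^ d * β ^ (t + s) := rfl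
    _ ≤ ((1 + s : ℝ) * t) ^ d * β ^ (t + s) := mul_le_mul_of_nonneg_right h3 h4.le
    _ = ((1 + s : ℝ) ^ d * β ^ s) * gr β d t := by
        unfold gr
        rw [pow_add, mul_pow]
        ring

/-- a sequence whose increments are `O(t ^ d β ^ t)` is `O(t ^ d β ^ t)` -/
theorem rec_bound (hβ : 1 < β) (x : ℕ → ℝ) (C : ℝ)
    (hx : ∀ t, 1 ≤ t → x (t + 1) ≤ x t + C * gr β d t) :
    ∃ K : ℝ, ∀ t, 1 ≤ t → x t ≤ K * gr β d t := by
  obtain ⟨K, hK1, hK2⟩ : ∃ K : ℝ, x 1 ≤ K * gr β d 1 ∧ (0 ≤ K ∧ C ≤ K * (β - 1)) := by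
    refine ⟨max (max 0 (C / (β - 1))) (x 1 / gr β d 1), ?_, ?_, ?_⟩
    · rw [← div_le_iff₀ (gr_pos hβ le_rfl)]
      exact le_max_right _ _
    · exact (le_max_left _ _).trans (le_max_left _ _)
    · rw [← div_le_iff₀ (by linarith)]
      exact (le_max_right _ _).trans (le_max_left _ _)
  refine ⟨K, fun t ht => ?_⟩
  induction t, ht using Nat.le_induction with
  | base => exact hK1
  | succ t ht ih =>
    have h1 := gr_pos (d := d) hβ ht
    have h2 := gr_add_ge (d := d) hβ t 1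
    rw [pow_one] at h2
    have h3 : K * (β * gr β d t) ≤ K * gr β d (t + 1) := mul_le_mul_of_nonneg_left h2 hK2.1
    have h4 : C * gr β d t ≤ K * (β - 1) * gr β d t := mul_le_mul_of_nonneg_right hK2.2 h1.le
    calc x (t + 1) ≤ x t + C * gr β d t := hx t ht
      _ ≤ K * gr β d t + K * (β - 1) * gr β d t := add_le_add ih h4
      _ = K * (β * gr β d t) := by ring
      _ ≤ K * gr β d (t + 1) := h3

/-- comparison of growths in the lexicographic order -/
theorem gr_lex (hβ : 1 < β) {β' : ℝ} {d' : ℕ} (h : toLex (β, d) < toLex (β', d')) (M : ℝ) :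
    ∀ᶠ t : ℕ in atTop, M * gr β d t ≤ gr β' d' t := by
  have hβ0 : 0 < β := by linarith
  rw [Prod.Lex.toLex_lt_toLex] at h
  rcases h with h | ⟨h1, h2⟩
  · have h' : β < β' := h
    have h3 : 1 < β' / β := by
      rw [one_lt_div hβ0]
      exact h'
    have h4 := tendsto_pow_const_div_const_pow_of_one_lt d h3
    have h5 : ∀ᶠ t : ℕ in atTop, (t : ℝ) ^ d / (β' / β) ^ t < 1 / (|M| + 1) :=
      h4.eventually_lt_const (by positivity)
    filter_upwards [h5, eventually_ge_atTop 1] with t ht ht1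
    have h6 : 0 < (β' / β) ^ t := by positivity
    have h1t : (1 : ℝ) ≤ t := by exact_mod_cast ht1
    rw [div_lt_div_iff₀ h6 (by positivity), one_mul] at ht
    have h7 : (|M| + 1) * gr β d t ≤ β' ^ t := by
      have h8 : (β' / β) ^ t * β ^ t = β' ^ t := by
        rw [← mul_pow, div_mul_cancel₀ _ hβ0.ne']
      rw [← h8]
      unfold gr
      have h9 : 0 < β ^ t := by positivity
      nlinarith [mul_le_mul_of_nonneg_right ht.le h9.le]
    have h10 : β' ^ t ≤ gr β' d' t := by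
      unfold gr
      have h11 : (1 : ℝ) ≤ (t : ℝ) ^ d' := one_le_pow₀ h1t
      have h12 : 0 < β' ^ t := pow_pos (hβ0.trans h') t
      nlinarith
    have h13 := gr_pos (d := d) hβ ht1
    have h14 : M * gr β d t ≤ (|M| + 1) * gr β d t := by
      refine mul_le_mul_of_nonneg_right ?_ h13.le
      linarith [le_abs_self M]
    linarith
  · have h1' : β = β' := h1
    have h2' : d < d' := h2
    obtain ⟨N, hN⟩ := exists_nat_ge M
    filter_upwards [eventually_ge_atTop (N + 1)] with t ht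
    have h1t : (1 : ℝ) ≤ t := by exact_mod_cast (by omega : 1 ≤ t)
    have h3 : (t : ℝ) ^ (d + 1) ≤ (t : ℝ) ^ d' := pow_le_pow_right₀ h1t h2'
    have h4 : M ≤ t := hN.trans (by exact_mod_cast (by omega : N ≤ t))
    have h5 : 0 < β ^ t := by positivity
    have h6 : (0 : ℝ) ≤ (t : ℝ) ^ d := by positivity
    rw [← h1']
    unfold gr
    calc M * ((t : ℝ) ^ d * β ^ t) ≤ t * ((t : ℝ) ^ d * β ^ t) :=
          mul_le_mul_of_nonneg_right h4 (by positivity)
      _ = (t : ℝ) ^ (d + 1) * β ^ t := by ring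
      _ ≤ (t : ℝ) ^ d' * β ^ t := mul_le_mul_of_nonneg_right h3 h5.le

end gr

/-- The letters of smallest growth: the letters in `p` have the growth `t ^ d β ^ t`, the others
have larger growth. -/
structure Slow {k : ℕ} (σ : Fin k → List (Fin k)) (β : ℝ) (d : ℕ) (p : Fin k → Bool) (lo hi : ℝ) :
    Prop where
  one_lt : 1 < β
  lo_pos : 0 < lo
  ge : ∀ b t, 1 ≤ t → lo * gr β d t ≤ slen σ b t
  le : ∀ b t, p b = true → 1 ≤ t → (slen σ b t : ℝ) ≤ hi * gr β d t
  fast : ∀ c, p c = false → ∀ M : ℝ, ∀ᶠ t : ℕ in atTop, M * gr β d t ≤ slen σ c t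

theorem exists_slow {k : ℕ} [NeZero k] (σ : Fin k → List (Fin k))
    (hG : ∀ b : Fin k, ∃ (β : ℝ) (d : ℕ), 1 < β ∧ Grow (slen σ b) β d) :
    ∃ (β : ℝ) (d : ℕ) (p : Fin k → Bool) (lo hi : ℝ), Slow σ β d p lo hi ∧ ∃ b, p b = true := by
  classical
  choose β d hβ hgr using hG
  choose lo hi hlo hhi hb using hgr
  obtain ⟨b₀, hb₀⟩ := Finite.exists_min (fun b : Fin k => toLex (β b, d b))
  obtain ⟨m, hm⟩ := Finite.exists_min lo
  obtain ⟨M, hM⟩ := Finite.exists_max hi
  -- a uniform lower bound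
  have hge : ∀ b, ∃ l : ℝ, 0 < l ∧ ∀ t, 1 ≤ t → l * gr (β b₀) (d b₀) t ≤ slen σ b t := by
    intro b
    rcases (hb₀ b).lt_or_eq with h | h
    · -- eventually, and finitely many times
      have h1 := gr_lex (hβ b₀) h 1
      obtain ⟨N, hN⟩ := eventually_atTop.mp h1
      have h2 : ∃ l : ℝ, 0 < l ∧ ∀ t ≤ N, 1 ≤ t → l * gr (β b₀) (d b₀) t ≤ slen σ b t := by
        have h3 : ∀ N : ℕ, ∃ l : ℝ, 0 < l ∧
            ∀ t ≤ N, 1 ≤ t → l * gr (β b₀) (d b₀) t ≤ slen σ b t := by
          intro N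
          induction N with
          | zero =>
            exact ⟨1, one_pos, fun t ht ht1 => absurd ht1 (by omega)⟩
          | succ N ih =>
            obtain ⟨l, hl, hl'⟩ := ih
            have h4 := gr_pos (d := d b₀) (hβ b₀) (t := N + 1) (by omega)
            have h5 := gr_pos (d := d b) (hβ b) (t := N + 1) (by omega)
            have h6 : (0 : ℝ) < slen σ b (N + 1) :=
              lt_of_lt_of_le (mul_pos (hlo b) h5) (hb b (N + 1) (by omega)).1
            refine ⟨min l ((slen σ b (N + 1) : ℝ) / gr (β b₀) (d b₀) (N + 1)),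
              lt_min hl (div_pos h6 h4), fun t ht ht1 => ?_⟩
            have h7 := gr_pos (d := d b₀) (hβ b₀) ht1
            rcases Nat.lt_or_ge N t with h | h
            · have : t = N + 1 := by omega
              subst this
              calc _ ≤ ((slen σ b (N + 1) : ℝ) / gr (β b₀) (d b₀) (N + 1)) *
                    gr (β b₀) (d b₀) (N + 1) :=
                  mul_le_mul_of_nonneg_right (min_le_right _ _) h7.le
                _ = _ := div_mul_cancel₀ _ h4.ne'
            · exact (mul_le_mul_of_nonneg_right (min_le_left _ _) h7.le).trans (hl' t h ht1)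
        exact h3 N
      obtain ⟨l, hl, hl'⟩ := h2
      refine ⟨min l (lo b), lt_min hl (hlo b), fun t ht => ?_⟩
      have h7 := gr_pos (d := d b₀) (hβ b₀) ht
      rcases Nat.lt_or_ge N t with h | h
      · have h8 := hN t h.le
        rw [one_mul] at h8
        calc _ ≤ lo b * gr (β b₀) (d b₀) t :=
              mul_le_mul_of_nonneg_right (min_le_right _ _) h7.le
          _ ≤ lo b * gr (β b) (d b) t := mul_le_mul_of_nonneg_left h8 (hlo b).le
          _ ≤ _ := (hb b t ht).1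
      · exact (mul_le_mul_of_nonneg_right (min_le_left _ _) h7.le).trans (hl' t h ht)
    · have h1 : (β b₀, d b₀) = (β b, d b) := h
      have h2 : β b₀ = β b := congrArg Prod.fst h1
      have h3 : d b₀ = d b := congrArg Prod.snd h1
      refine ⟨lo b, hlo b, fun t ht => ?_⟩
      rw [h2, h3]
      exact (hb b t ht).1
  choose l hl hl' using hge
  obtain ⟨m', hm'⟩ := Finite.exists_min l
  refine ⟨β b₀, d b₀, fun b => decide (toLex (β b, d b) = toLex (β b₀, d b₀)), l m', hi M,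
    ⟨hβ b₀, hl m', ?_, ?_, ?_⟩, b₀, by simp⟩
  · intro b t ht
    exact (mul_le_mul_of_nonneg_right (hm' b) (gr_pos (hβ b₀) ht).le).trans (hl' b t ht)
  · intro b t hbp ht
    have h1 : (β b, d b) = (β b₀, d b₀) := of_decide_eq_true hbp
    have h2 : β b = β b₀ := congrArg Prod.fst h1
    have h3 : d b = d b₀ := congrArg Prod.snd h1
    have h4 := (hb b t ht).2
    rw [h2, h3] at h4
    exact h4.trans (mul_le_mul_of_nonneg_right (hM b) (gr_pos (hβ b₀) ht).le)
  · intro c hc M'
    have h1 : toLex (β c, d c) ≠ toLex (β b₀, d b₀) := of_decide_eq_false hc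
    have h2 : toLex (β b₀, d b₀) < toLex (β c, d c) := lt_of_le_of_ne (hb₀ c) h1.symm
    filter_upwards [gr_lex (hβ b₀) h2 (M' / lo c), eventually_ge_atTop 1] with t ht ht1
    have h3 := (hb c t ht1).1
    have h4 : M' * gr (β b₀) (d b₀) t ≤ lo c * gr (β c) (d c) t := by
      have h5 := mul_le_mul_of_nonneg_left ht (hlo c).le
      rw [← mul_assoc, mul_div_cancel₀ _ (hlo c).ne'] at h5
      exact h5
    exact h4.trans h3

end Pool.Agent.W2helper32.DL
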