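import Pool.Agent.W2helper32.DL.Growth

/-!
# Job U: the letters of smallest growth
-/

set_option autoImplicit false
open Filter

namespace Pool.Agent.W2helper32.DL

open Pool.Agent.W2helper68.DL

variable {k : ℕ}

/-- `p` is a set of letters which is closed under the substitution, and so is its complement in the
weak sense -/
structure Blk (σ : Fin k → List (Fin k)) (p : Fin k → Bool) : Prop where
  closed : ∀ b, p b = true → ∀ x ∈ σ b, p x = true
  opened : ∀ c, p c = false → ∃ x ∈ σ c, p x = false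

theorem Blk.rv {σ : Fin k → List (Fin k)} {p : Fin k → Bool} (h : Blk σ p) : Blk (rv σ) p := by
  refine ⟨fun b hb x hx => h.closed b hb x ?_, fun c hc => ?_⟩
  · exact List.mem_reverse.mp hx
  · obtain ⟨x, hx, hx'⟩ := h.opened c hc
    exact ⟨x, List.mem_reverse.mpr hx, hx'⟩

theorem Blk.S_closed {σ : Fin k → List (Fin k)} {p : Fin k → Bool} (h : Blk σ p) (t : ℕ)
    {w : List (Fin k)} (hw : ∀ x ∈ w, p x = true) : ∀ x ∈ S σ t w, p x = true := by
  induction t generalizing w with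
  | zero => exact hw
  | succ t ih =>
    rw [S_succ]
    refine ih fun x hx => ?_
    obtain ⟨b, hb, hx⟩ := List.mem_flatMap.mp hx
    exact h.closed b (hw b hb) x hx

theorem Blk.S_opened {σ : Fin k → List (Fin k)} {p : Fin k → Bool} (h : Blk σ p) (t : ℕ)
    {w : List (Fin k)} (hw : ∃ x ∈ w, p x = false) : ∃ x ∈ S σ t w, p x = false := by
  induction t generalizing w with
  | zero => exact hw
  | succ t ih =>
    rw [S_succ]
    refine ih ?_
    obtain ⟨c, hc, hc'⟩ := hw
    obtain ⟨x, hx, hx'⟩ := h.opened c hc'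
    exact ⟨x, List.mem_flatMap.mpr ⟨c, hc, hx⟩, hx'⟩

theorem sup_rec {β : ℝ} {d : ℕ} (hβ : 1 < β) (p : Fin k → Bool) (F : ℕ → Fin k → ℕ) (C : ℝ)
    (h : ∀ t, 1 ≤ t → ∀ c, p c = false →
      ∃ c', p c' = false ∧ (F (t + 1) c : ℝ) ≤ F t c' + C * gr β d t) :
    ∃ K : ℝ, ∀ c, p c = false → ∀ t, 1 ≤ t → (F t c : ℝ) ≤ K * gr β d t := by
  classical
  by_cases hne : ∃ c, p c = false
  · obtain ⟨c₀, hc₀⟩ := hne
    obtain ⟨T, hT⟩ : ∃ T : Finset (Fin k), ∀ c, c ∈ T ↔ p c = false :=
      ⟨Finset.univ.filter fun c => p c = false, fun c => by simp⟩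
    have hTn : T.Nonempty := ⟨c₀, (hT c₀).mpr hc₀⟩
    obtain ⟨K, hK⟩ := rec_bound (d := d) hβ (fun t => ((T.sup (F t) : ℕ) : ℝ)) C (by
      intro t ht
      obtain ⟨c, hc, hc'⟩ := Finset.exists_mem_eq_sup T hTn (F (t + 1))
      show ((T.sup (F (t + 1)) : ℕ) : ℝ) ≤ ((T.sup (F t) : ℕ) : ℝ) + C * gr β d t
      rw [hc']
      obtain ⟨c', hc1, hc2⟩ := h t ht c ((hT c).mp hc)
      have h3 : ((F t c' : ℕ) : ℝ) ≤ ((T.sup (F t) : ℕ) : ℝ) := by
        exact_mod_cast Finset.le_sup (f := F t) ((hT c').mpr hc1)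
      linarith)
    refine ⟨K, fun c hc t ht => le_trans ?_ (hK t ht)⟩
    exact_mod_cast Finset.le_sup (f := F t) ((hT c).mpr hc)
  · exact ⟨0, fun c hc => absurd ⟨c, hc⟩ hne⟩

section slow

variable {σ : Fin k → List (Fin k)} {β : ℝ} {d : ℕ} {p : Fin k → Bool} {lo hi : ℝ}

theorem Slow.hi_pos (h : Slow σ β d p lo hi) {b : Fin k} (hb : p b = true) : 0 < hi := by
  have h1 := h.ge b 1 le_rfl
  have h2 := h.le b 1 hb le_rfl
  have h3 := gr_pos (d := d) h.one_lt (le_refl 1)
  have h4 : lo * gr β d 1 ≤ hi * gr β d 1 := h1.trans h2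
  exact h.lo_pos.trans_le (le_of_mul_le_mul_right h4 h3)

theorem Slow.blk (h : Slow σ β d p lo hi) : Blk σ p := by
  refine ⟨fun b hb x hx => ?_, fun c hc => ?_⟩
  · by_contra hx'
    have hx' : p x = false := by simpa using hx'
    have h1 := h.fast x hx' (hi * ((1 + (1 : ℕ) : ℝ) ^ d * β ^ 1) + 1)
    obtain ⟨N, hN⟩ := eventually_atTop.mp (h1.and (eventually_ge_atTop 1))
    obtain ⟨h2, h3⟩ := hN N le_rfl
    have h4 : (slen σ x N : ℝ) ≤ slen σ b (N + 1) := by
      rw [slen_eq σ b, S_one_succ]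
      exact_mod_cast slen_le_of_mem σ N (σ b) x hx
    have h5 := h.le b (N + 1) hb (by omega)
    have h6 := gr_add_le (d := d) h.one_lt h3 1
    have h7 := mul_le_mul_of_nonneg_left h6 (h.hi_pos hb).le
    have h8 := gr_pos (d := d) h.one_lt h3
    nlinarith
  · by_contra hcon
    push Not at hcon
    have hall : ∀ x ∈ σ c, p x = true := fun x hx => by simpa using hcon x hx
    have h1 := h.fast c hc ((σ c).length * hi + 1)
    obtain ⟨N, hN⟩ := eventually_atTop.mp h1
    have h2 := hN (N + 1 + 1) (by omega)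
    have h3 : (slen σ c (N + 1 + 1) : ℝ) ≤ (σ c).length * (hi * gr β d (N + 1)) := by
      rw [slen_eq, S_one_succ]
      exact length_le_of σ (N + 1) (σ c) _ fun x hx => h.le x (N + 1) (hall x hx) (by omega)
    have h4 := gr_pos (d := d) h.one_lt (t := N + 1) (by omega)
    have h5 := gr_add_ge (d := d) h.one_lt (N + 1) 1
    rw [pow_one] at h5
    have h6 : gr β d (N + 1) ≤ gr β d (N + 1 + 1) := by nlinarith [h.one_lt]
    rcases Nat.eq_zero_or_pos (σ c).length with h0 | h0
    · rw [h0] at h2 h3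
      simp only [Nat.cast_zero, zero_mul, zero_add, one_mul] at h2 h3
      linarith
    · have hne : σ c ≠ [] := List.ne_nil_of_length_pos h0
      have h7 : 0 < hi := h.hi_pos (hall _ (List.head_mem hne))
      have h8 : (0 : ℝ) < (σ c).length := by exact_mod_cast h0
      have h9 : (σ c).length * hi * gr β d (N + 1) ≤ (σ c).length * hi * gr β d (N + 1 + 1) :=
        mul_le_mul_of_nonneg_left h6 (by positivity)
      nlinarith

/-- the runs at the beginning of the images of a letter -/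
theorem run_bound (hβ : 1 < β) (hb : Blk σ p) (hhi : 0 ≤ hi)
    (hle : ∀ b t, p b = true → 1 ≤ t → (slen σ b t : ℝ) ≤ hi * gr β d t) :
    ∃ K : ℝ, ∀ c, p c = false → ∀ t, 1 ≤ t → (run p (S σ t [c]) : ℝ) ≤ K * gr β d t := by
  obtain ⟨m, hm⟩ : ∃ m : ℕ, ∀ c, (σ c).length ≤ m :=
    ⟨Finset.univ.sup fun c => (σ c).length, fun c => Finset.le_sup (f := fun c => (σ c).length)
      (Finset.mem_univ c)⟩
  refine sup_rec hβ p (fun t c => run p (S σ t [c])) (m * hi) fun t ht c hc => ?_
  obtain ⟨x, hx, hx'⟩ := hb.opened c hc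
  -- the first letter outside `p`
  have h1 : run p (σ c) < (σ c).length := run_lt_of_not p ⟨x, hx, hx'⟩
  have h2 := get_run p h1
  obtain ⟨c', hc'⟩ : ∃ c', c' = (σ c)[run p (σ c)] := ⟨_, rfl⟩
  rw [← hc'] at h2
  obtain ⟨w, hw⟩ : ∃ w, w = (σ c).take (run p (σ c)) := ⟨_, rfl⟩
  obtain ⟨r, hr⟩ : ∃ r, r = (σ c).drop (run p (σ c) + 1) := ⟨_, rfl⟩
  have h3 : σ c = w ++ (c' :: r) := by
    rw [hw, hc', hr, ← List.drop_eq_getElem_cons h1, List.take_append_drop]
  have h4 : ∀ y ∈ w, p y = true := by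
    intro y hy
    rw [hw] at hy
    have h5 : (σ c).take (run p (σ c)) = (σ c).takeWhile p := by
      unfold run
      exact (List.prefix_iff_eq_take.mp (List.takeWhile_prefix p)).symm
    rw [h5] at hy
    exact List.mem_takeWhile_imp hy
  refine ⟨c', h2, ?_⟩
  have h6 : run p (S σ (t + 1) [c]) = (S σ t w).length + run p (S σ t [c']) := by
    rw [S_one_succ, h3, S_append, run_append_of_all p (hb.S_closed t h4), S_cons,
      run_append_of_not p (hb.S_opened t ⟨c', List.mem_singleton_self c', h2⟩)]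
  have h7 : ((S σ t w).length : ℝ) ≤ w.length * (hi * gr β d t) :=
    length_le_of σ t w _ fun y hy => hle y t (h4 y hy) ht
  have h8 : (w.length : ℝ) ≤ m := by
    have : w.length ≤ m := by
      rw [hw, List.length_take]
      exact (Nat.min_le_right _ _).trans (hm c)
    exact_mod_cast this
  have h9 := gr_pos (d := d) hβ ht
  have h10 : (w.length : ℝ) * (hi * gr β d t) ≤ m * (hi * gr β d t) :=
    mul_le_mul_of_nonneg_right h8 (by positivity)
  show (run p (S σ (t + 1) [c]) : ℝ) ≤ run p (S σ t [c']) + m * hi * gr β d t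
  rw [h6]
  push_cast
  linarith

end slow

end Pool.Agent.W2helper32.DL
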