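import Pool.Agent.W2helper68.DL.Stm

/-!
# Job U: words
-/

set_option autoImplicit false
open Filter

namespace Pool.Agent.W2helper32.DL

open Pool.Agent.W2helper68.DL

variable {k : ℕ}

/-- iterates of the substitution on words -/
def S (σ : Fin k → List (Fin k)) (t : ℕ) (w : List (Fin k)) : List (Fin k) :=
  (fun w : List (Fin k) => w.flatMap σ)^[t] w

theorem S_zero (σ : Fin k → List (Fin k)) (w : List (Fin k)) : S σ 0 w = w := rfl

theorem S_succ (σ : Fin k → List (Fin k)) (t : ℕ) (w : List (Fin k)) :
    S σ (t + 1) w = S σ t (w.flatMap σ) := by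
  unfold S
  rw [Function.iterate_succ_apply]

theorem S_succ' (σ : Fin k → List (Fin k)) (t : ℕ) (w : List (Fin k)) :
    S σ (t + 1) w = (S σ t w).flatMap σ := by
  unfold S
  rw [Function.iterate_succ_apply']

theorem S_add (σ : Fin k → List (Fin k)) (s t : ℕ) (w : List (Fin k)) :
    S σ (s + t) w = S σ s (S σ t w) := by
  unfold S
  rw [Function.iterate_add_apply]

theorem S_nil (σ : Fin k → List (Fin k)) (t : ℕ) : S σ t [] = [] := by
  induction t with
  | zero => rfl
  | succ t ih => rw [S_succ]; exact ih

theorem S_append (σ : Fin k → List (Fin k)) (t : ℕ) (v w : List (Fin k)) :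
    S σ t (v ++ w) = S σ t v ++ S σ t w := by
  induction t generalizing v w with
  | zero => rfl
  | succ t ih => rw [S_succ, S_succ, S_succ, List.flatMap_append, ih]

theorem S_cons (σ : Fin k → List (Fin k)) (t : ℕ) (b : Fin k) (w : List (Fin k)) :
    S σ t (b :: w) = S σ t [b] ++ S σ t w := S_append σ t [b] w

theorem S_one_succ (σ : Fin k → List (Fin k)) (t : ℕ) (b : Fin k) :
    S σ (t + 1) [b] = S σ t (σ b) := by
  rw [S_succ]
  simp

theorem slen_eq (σ : Fin k → List (Fin k)) (b : Fin k) (t : ℕ) :
    slen σ b t = (S σ t [b]).length := rfl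

theorem length_S (σ : Fin k → List (Fin k)) (t : ℕ) (w : List (Fin k)) :
    (S σ t w).length = (w.map fun b => slen σ b t).sum := by
  induction w with
  | nil => rw [S_nil]; rfl
  | cons b w ih => rw [S_cons, List.length_append, ih, List.map_cons, List.sum_cons, slen_eq]

theorem slen_succ (σ : Fin k → List (Fin k)) (b : Fin k) (t : ℕ) :
    slen σ b (t + 1) = ((σ b).map fun x => slen σ x t).sum := by
  rw [slen_eq, S_one_succ, length_S]

theorem slen_le_of_mem (σ : Fin k → List (Fin k)) (t : ℕ) (w : List (Fin k)) (x : Fin k)
    (hx : x ∈ w) : slen σ x t ≤ (S σ t w).length := by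
  rw [length_S]
  exact List.single_le_sum (fun _ _ => Nat.zero_le _) _ (List.mem_map_of_mem hx)

theorem length_le_of (σ : Fin k → List (Fin k)) (t : ℕ) (w : List (Fin k)) (C : ℝ)
    (hC : ∀ x ∈ w, (slen σ x t : ℝ) ≤ C) : ((S σ t w).length : ℝ) ≤ w.length * C := by
  induction w with
  | nil => rw [S_nil]; simp
  | cons b w ih =>
    rw [S_cons, List.length_append, List.length_cons]
    push_cast
    have h1 := ih fun x hx => hC x (List.mem_cons_of_mem b hx)
    have h2 := hC b List.mem_cons_self
    rw [slen_eq] at h2
    nlinarith

theorem length_ge_of (σ : Fin k → List (Fin k)) (t : ℕ) (w : List (Fin k)) (C : ℝ)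
    (hC : ∀ x ∈ w, C ≤ (slen σ x t : ℝ)) : w.length * C ≤ ((S σ t w).length : ℝ) := by
  induction w with
  | nil => rw [S_nil]; simp
  | cons b w ih =>
    rw [S_cons, List.length_append, List.length_cons]
    push_cast
    have h1 := ih fun x hx => hC x (List.mem_cons_of_mem b hx)
    have h2 := hC b List.mem_cons_self
    rw [slen_eq] at h2
    nlinarith

/-- the reversed substitution -/
def rv (σ : Fin k → List (Fin k)) : Fin k → List (Fin k) := fun b => (σ b).reverse

theorem S_rv (σ : Fin k → List (Fin k)) (t : ℕ) (w : List (Fin k)) :
    S (rv σ) t w.reverse = (S σ t w).reverse := by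
  induction t generalizing w with
  | zero => rfl
  | succ t ih =>
    rw [S_succ, S_succ, ← ih]
    congr 1
    rw [List.reverse_flatMap]
    rfl

theorem slen_rv (σ : Fin k → List (Fin k)) (b : Fin k) (t : ℕ) :
    slen (rv σ) b t = slen σ b t := by
  rw [slen_eq, slen_eq]
  have h := S_rv σ t [b]
  rw [List.reverse_singleton] at h
  rw [h, List.length_reverse]

/-! ### runs at the beginning of a word -/

section run

variable {α : Type} (p : α → Bool)

/-- the length of the run of letters in `p` at the beginning -/
def run (w : List α) : ℕ := (w.takeWhile p).length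

theorem run_append_of_all {v : List α} (hv : ∀ x ∈ v, p x = true) (w : List α) :
    run p (v ++ w) = v.length + run p w := by
  unfold run
  rw [List.takeWhile_append_of_pos hv, List.length_append]

theorem run_append_of_not {v : List α} (hv : ∃ x ∈ v, p x = false) (w : List α) :
    run p (v ++ w) = run p v := by
  unfold run
  induction v with
  | nil =>
    obtain ⟨x, hx, -⟩ := hv
    exact absurd hx List.not_mem_nil
  | cons b v ih =>
    rw [List.cons_append, List.takeWhile_cons, List.takeWhile_cons]
    by_cases hb : p b = true
    · rw [if_pos hb, if_pos hb, List.length_cons, List.length_cons, ih]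
      obtain ⟨x, hx, hx'⟩ := hv
      rcases List.mem_cons.mp hx with rfl | hx
      · rw [hb] at hx'
        exact absurd hx' (by decide)
      · exact ⟨x, hx, hx'⟩
    · rw [if_neg hb, if_neg hb]

theorem run_le_length (w : List α) : run p w ≤ w.length :=
  (List.takeWhile_sublist p).length_le

theorem run_lt_of_not {w : List α} (hw : ∃ x ∈ w, p x = false) : run p w < w.length := by
  induction w with
  | nil =>
    obtain ⟨x, hx, -⟩ := hw
    exact absurd hx List.not_mem_nil
  | cons b w ih =>
    unfold run at ih ⊢
    rw [List.takeWhile_cons]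
    by_cases hb : p b = true
    · rw [if_pos hb, List.length_cons, List.length_cons]
      refine Nat.succ_lt_succ (ih ?_)
      obtain ⟨x, hx, hx'⟩ := hw
      rcases List.mem_cons.mp hx with rfl | hx
      · rw [hb] at hx'
        exact absurd hx' (by decide)
      · exact ⟨x, hx, hx'⟩
    · rw [if_neg hb]
      simp

/-- the letter at the end of the run -/
theorem get_run {w : List α} (h : run p w < w.length) : p w[run p w] = false := by
  induction w with
  | nil => simp at h
  | cons b w ih =>
    by_cases hb : p b = true
    · have h1 : run p (b :: w) = run p w + 1 := by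
        unfold run
        rw [List.takeWhile_cons, if_pos hb, List.length_cons]
      have h2 : run p w < w.length := by
        rw [h1, List.length_cons] at h
        omega
      have h3 := ih h2
      simp only [h1, List.getElem_cons_succ]
      exact h3
    · have h1 : run p (b :: w) = 0 := by
        unfold run
        rw [List.takeWhile_cons, if_neg hb]
        rfl
      simp only [h1, List.getElem_cons_zero]
      simpa using hb

/-- the run of a long prefix is the run of the word -/
theorem run_take {w : List α} {n : ℕ} (h : run p w < n) : run p (w.take n) = run p w := by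
  induction w generalizing n with
  | nil => rw [List.take_nil]
  | cons b w ih =>
    obtain ⟨n, rfl⟩ : ∃ m, n = m + 1 := ⟨n - 1, by omega⟩
    rw [List.take_succ_cons]
    unfold run at ih h ⊢
    rw [List.takeWhile_cons, List.takeWhile_cons]
    by_cases hb : p b = true
    · rw [List.takeWhile_cons, if_pos hb, List.length_cons] at h
      rw [if_pos hb, if_pos hb, List.length_cons, List.length_cons, ih (by omega)]
    · rw [if_neg hb, if_neg hb]

end run

end Pool.Agent.W2helper32.DL
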